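import Mathlib
import Pool.Agent.Work.MP_d3656f_al.O.Ord

/-!
# J/Rep : a fixed point towards which some cell is moved backwards is repelling on both sides

`Rep Ψ a`: there are points `s1, s2` of the circle, on the two sides of `a`, which `bd Ψ` moves away
from `a` (in the coordinate `X = cX a` of the circle minus `a`, where `±∞` is `a`:
`X s1 < X s2`, `X s1 < X (Ψ s1)`, `X (Ψ s2) < X s2`).

`rep`: let `Ψ = conj γ * Φ`, `τ v = γ * Φ v`, `bd Ψ a = a`. Given `C` there is `D` such that if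
some `v` satisfies `Bt C (τ v) v a` and `q v (τ v) ≥ D` then `Rep Ψ a`.
Proof. Let `C ≥ 1`, `ε = 1 / (4 √C)` (so `ε ≤ 1/4`). Let `K = {x ∈ Bd | x ≠ a, del v a x ≥ ε}`.
(1) For `x ∈ K`: `Q v a * Q v x ≤ ε⁻² Q a x`, i.e. `Bt ε⁻² a v x`. By `bt_bb` for `Φ` and the
isometry `γ`: `Bt C1 a (τ v) (bd Ψ x)`, `C1` depending only on `C, Φ` (as `bd Ψ a = a`). So
`del (τ v) a (Ψ x) ≥ 1/√C1`.
(2) `Bt C (τ v) v a` gives `del (τ v) v a ≤ √C / q v (τ v) ≤ √C / D`. So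
`del (τ v) v (Ψ x) ≥ 1/√C1 - √C/D ≥ 1/(2√C1)` for `D` large, i.e. `Bt (4 C1) v (τ v) (Ψ x)`, hence
`del v (τ v) (Ψ x) ≤ 2 √C1 / q v (τ v) ≤ 2 √C1 / D`.
(3) `Bt C (τ v) v a` also says `del v (τ v) a ≥ 1/√C = 4 ε`. So
`del v a (Ψ x) ≥ 4 ε - 2√C1/D > 2 ε` for `D` large: `Ψ x ∈ K`, with `del v a (Ψ x) > ε`.
(4) In terms of the coordinate: with `k = 1 / (ε² Q v a)` one has `del v a x ≥ ε` iff
`Q v x ≤ k Q a x`. `level2` (`2 Q v a k = 2 ε⁻² > 1`) gives `s1, s2` with equality. They are in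
`K`, and `Q v (Ψ s_i) < k Q a (Ψ s_i)` by (3), so `X s1 < X (Ψ s_i) < X s2`.
-/

set_option autoImplicit false

namespace Pool.Agent.Work.MP_d3656f_al

private theorem del_le_of {v x y : V} {ε : ℝ} (hε : 0 ≤ ε) (hv : v ∈ Hyp) (hx : x ∈ Cone)
    (hy : y ∈ Cone) (h : Q x y ≤ ε ^ 2 * (Q v x * Q v y)) : del v x y ≤ ε := by
  have h1 := Q_pos_hyp hv hx
  have h2 := Q_pos_hyp hv hy
  unfold del
  rw [Real.sqrt_le_left hε, div_le_iff₀ (by positivity)]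
  exact h

private theorem le_del_of {v x y : V} {ε : ℝ} (hv : v ∈ Hyp) (hx : x ∈ Cone)
    (hy : y ∈ Cone) (h : ε ^ 2 * (Q v x * Q v y) ≤ Q x y) : ε ≤ del v x y := by
  have h1 := Q_pos_hyp hv hx
  have h2 := Q_pos_hyp hv hy
  unfold del
  apply Real.le_sqrt_of_sq_le
  rw [le_div_iff₀ (by positivity)]
  exact h

private theorem of_le_del {v x y : V} {ε : ℝ} (hε : 0 ≤ ε) (hv : v ∈ Hyp) (hx : x ∈ Cone)
    (hy : y ∈ Cone) (h : ε ≤ del v x y) : ε ^ 2 * (Q v x * Q v y) ≤ Q x y := by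
  have h1 := Q_pos_hyp hv hx
  have h2 := Q_pos_hyp hv hy
  have h3 := Q_nonneg hx hy
  unfold del at h
  have h4 : ε ^ 2 ≤ Q x y / (Q v x * Q v y) := by
    have h5 := Real.sq_sqrt (show 0 ≤ Q x y / (Q v x * Q v y) by positivity)
    have h6 := Real.sqrt_nonneg (Q x y / (Q v x * Q v y))
    nlinarith
  rwa [le_div_iff₀ (by positivity)] at h4

private theorem est {c0 c1 D : ℝ} {v τ a y : V} (hc0 : 0 < c0) (hc1 : 0 < c1)
    (hv : v ∈ Hyp) (hτ : τ ∈ Hyp) (ha : a ∈ Bd) (hy : y ∈ Bd) (hD : D = 5 * (c0 * c1))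
    (h1 : Q a τ * Q τ y ≤ c1 ^ 2 * Q a y) (h2 : Q τ v * Q v a ≤ c0 ^ 2 * Q τ a)
    (h3 : D ≤ Q v τ) : Q v a * Q v y < 4 * c0 ^ 2 * Q a y := by
  have hD0 : 0 < D := by rw [hD]; positivity
  have hac := bd_cone ha
  have hyc := bd_cone hy
  have hvc := hyp_cone hv
  have hτc := hyp_cone hτ
  have hvτ : 0 < Q v τ := lt_of_lt_of_le hD0 h3
  have hτv : Q τ v = Q v τ := Q_symm _ _
  have hva := Q_pos_hyp hv hac
  have hvy := Q_pos_hyp hv hyc
  have hτa := Q_pos_hyp hτ hac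
  have hτy := Q_pos_hyp hτ hyc
  -- step 1
  have s1 : 1 / c1 ≤ del τ a y := by
    apply le_del_of hτ hac hyc
    rw [div_pow, one_pow, div_mul_eq_mul_div, one_mul, div_le_iff₀ (by positivity)]
    rw [Q_symm a τ] at h1
    linarith
  -- step 2
  have s2 : del τ a v ≤ c0 / D := by
    apply del_le_of (by positivity) hτ hac hvc
    have e1 : Q τ v * (Q τ v * Q v a) ≤ c0 ^ 2 * (Q τ a * Q τ v) := by
      calc Q τ v * (Q τ v * Q v a) ≤ Q τ v * (c0 ^ 2 * Q τ a) :=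
            mul_le_mul_of_nonneg_left h2 (by rw [hτv]; exact hvτ.le)
        _ = _ := by ring
    have e2 : D ^ 2 * Q a v ≤ c0 ^ 2 * (Q τ a * Q τ v) := by
      refine le_trans ?_ e1
      rw [hτv, Q_symm a v]
      have : D ^ 2 ≤ Q v τ * Q v τ := by nlinarith
      nlinarith
    rw [div_pow, div_mul_eq_mul_div, le_div_iff₀ (by positivity)]
    linarith
  have s3 := del_tri hτ hac hyc hvc
  have s4 : 1 / (2 * c1) ≤ del τ v y := by
    have e1 : c0 / D = 1 / (5 * c1) := by rw [hD]; field_simp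
    have e2 : 1 / (2 * c1) ≤ 1 / c1 - 1 / (5 * c1) := by
      have : 1 / c1 - 1 / (5 * c1) - 1 / (2 * c1) = 3 / (10 * c1) := by field_simp; ring
      have h : 0 < 3 / (10 * c1) := by positivity
      linarith
    rw [e1] at s2
    linarith
  have s5 := of_le_del (by positivity) hτ hvc hyc s4
  -- step 7
  have s6 : del v τ y ≤ 2 * c1 / D := by
    apply del_le_of (by positivity) hv hτc hyc
    have e1 : Q τ v * Q τ y ≤ 4 * c1 ^ 2 * Q v y := by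
      rw [div_pow, one_pow, div_mul_eq_mul_div, one_mul, div_le_iff₀ (by positivity)] at s5
      linarith
    have e2 : D ^ 2 * Q τ y ≤ 4 * c1 ^ 2 * (Q v τ * Q v y) := by
      have e3 : Q v τ * (Q τ v * Q τ y) ≤ Q v τ * (4 * c1 ^ 2 * Q v y) :=
        mul_le_mul_of_nonneg_left e1 hvτ.le
      rw [hτv] at e3
      have e4 : D ^ 2 * Q τ y ≤ Q v τ * (Q v τ * Q τ y) := by
        have : D ^ 2 ≤ Q v τ * Q v τ := by nlinarith
        nlinarith
      linarith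
    rw [div_pow, div_mul_eq_mul_div, le_div_iff₀ (by positivity)]
    nlinarith
  have s7 : 1 / c0 ≤ del v a τ := by
    apply le_del_of hv hac hτc
    rw [div_pow, one_pow, div_mul_eq_mul_div, one_mul, div_le_iff₀ (by positivity)]
    rw [Q_symm a τ]
    rw [hτv] at h2
    linarith
  have s8 := del_tri hv hac hτc hyc
  have s9 : 3 / (5 * c0) ≤ del v a y := by
    have e1 : 2 * c1 / D = 2 / (5 * c0) := by rw [hD]; field_simp
    have e2 : 1 / c0 - 2 / (5 * c0) = 3 / (5 * c0) := by field_simp; ring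
    rw [e1] at s6
    rw [del_symm v y τ] at s8
    linarith
  have s10 := of_le_del (by positivity) hv hac hyc s9
  rw [div_pow, div_mul_eq_mul_div, div_le_iff₀ (by positivity)] at s10
  have : 0 < Q v a * Q v y := by positivity
  nlinarith

namespace Model

variable {G : Type} [Group G] (M : Model G)

/-- `a` is repelling on both sides. -/
def Rep (Ψ : MulAut G) (a : V) : Prop :=
  ∃ s₁ ∈ Bd, ∃ s₂ ∈ Bd, s₁ ≠ a ∧ s₂ ≠ a ∧ cX a s₁ < cX a s₂ ∧ cX a s₁ < cX a (M.bd Ψ s₁) ∧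
    cX a (M.bd Ψ s₂) < cX a s₂

theorem rep (Φ : MulAut G) (γ : G) {a : V} (ha : a ∈ Bd)
    (hfa : M.bd (MulAut.conj γ * Φ) a = a) (C : ℝ) : ∃ D : ℝ, ∀ v : G,
    Bt C (M.pt (γ * Φ v)) (M.pt v) a → D ≤ M.q v (γ * Φ v) → M.Rep (MulAut.conj γ * Φ) a := by
  set C0 := max C 1 with hC0
  have hC0' : 1 ≤ C0 := le_max_right _ _
  obtain ⟨C1', hC1'⟩ := M.bt_bb Φ (16 * C0)
  set C1 := max C1' 1 with hC1
  have hC11 : 1 ≤ C1 := le_max_right _ _
  set c0 := Real.sqrt C0 with hc0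
  set c1 := Real.sqrt C1 with hc1
  have hc0p : 0 < c0 := Real.sqrt_pos.2 (by linarith)
  have hc1p : 0 < c1 := Real.sqrt_pos.2 (by linarith)
  have hc0s : c0 ^ 2 = C0 := Real.sq_sqrt (by linarith)
  have hc1s : c1 ^ 2 = C1 := Real.sq_sqrt (by linarith)
  refine ⟨5 * (c0 * c1), fun v hv hD => ?_⟩
  have hv1 := M.pt_hyp v
  have hτ1 := M.pt_hyp (γ * Φ v)
  have hva := Q_pos_hyp hv1 (bd_cone ha)
  have hbt : Q (M.pt (γ * Φ v)) (M.pt v) * Q (M.pt v) a ≤ c0 ^ 2 * Q (M.pt (γ * Φ v)) a := by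
    rw [hc0s]
    exact Bt_mono (le_max_left _ _) (M.pt_cone _) (bd_cone ha) hv
  have key : ∀ x ∈ Bd, Q (M.pt v) a * Q (M.pt v) x ≤ 16 * C0 * Q a x →
      Q (M.pt v) a * Q (M.pt v) (M.bd (MulAut.conj γ * Φ) x)
        < 4 * c0 ^ 2 * Q a (M.bd (MulAut.conj γ * Φ) x) := by
    intro x hx h
    have hy : M.bd (MulAut.conj γ * Φ) x ∈ Bd := M.bd_mem _ hx
    refine est hc0p hc1p hv1 hτ1 ha hy rfl ?_ hbt hD
    have h1 : Bt (16 * C0) a (M.pt v) x := by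
      unfold Bt
      rw [Q_symm a]
      exact h
    have h2 := hC1' v a ha x hx h1
    have h3 : Bt C1 (M.bd Φ a) (M.pt (Φ v)) (M.bd Φ x) :=
      Bt_mono (le_max_left _ _) (bd_cone (M.bd_mem _ ha)) (bd_cone (M.bd_mem _ hx)) h2
    have h4 := (M.Bt_act_bd2 γ (Φ v) (M.bd_mem Φ ha) (M.bd_mem Φ hx)).2 h3
    rw [← M.bd_conj γ (M.bd_mem Φ ha), ← M.bd_mul _ _ ha, hfa,
      ← M.bd_conj γ (M.bd_mem Φ hx), ← M.bd_mul _ _ hx] at h4
    rw [hc1s]
    exact h4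
  obtain ⟨s₁, hs₁, s₂, hs₂, n1, n2, hlt, e1, e2, hin⟩ :=
    level2 hv1 ha (16 * C0 / Q (M.pt v) a) (by
      have : 2 * Q (M.pt v) a * (16 * C0 / Q (M.pt v) a) = 32 * C0 := by field_simp; ring
      rw [this]; linarith)
  have main : ∀ s ∈ Bd, s ≠ a → Q (M.pt v) s = 16 * C0 / Q (M.pt v) a * Q a s →
      cX a s₁ < cX a (M.bd (MulAut.conj γ * Φ) s) ∧
        cX a (M.bd (MulAut.conj γ * Φ) s) < cX a s₂ := by
    intro s hs hsa he
    have hy : M.bd (MulAut.conj γ * Φ) s ∈ Bd := M.bd_mem _ hs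
    have hya : M.bd (MulAut.conj γ * Φ) s ≠ a := by
      intro h
      apply hsa
      apply M.bd_inj (MulAut.conj γ * Φ) hs ha
      rw [h, hfa]
    have h1 := key s hs (by
      rw [he]
      have : Q (M.pt v) a * (16 * C0 / Q (M.pt v) a * Q a s) = 16 * C0 * Q a s := by
        field_simp
      rw [this])
    apply hin _ hy hya
    rw [div_mul_eq_mul_div, lt_div_iff₀ hva]
    have hq := Q_bd_pos ha hy (Ne.symm hya)
    rw [hc0s] at h1
    nlinarith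
  exact ⟨s₁, hs₁, s₂, hs₂, n1, n2, hlt, (main s₁ hs₁ n1 e1).1, (main s₂ hs₂ n2 e2).2⟩

end Model

end Pool.Agent.Work.MP_d3656f_al
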