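import Mathlib
import Pool.Agent.Work.MP_d3656f_al.J.Rep
import Pool.Agent.Work.MP_d3656f_al.T.Tr

/-!
# J/Good : a fixed point which is not repelling on both sides

Let `Ψ` be `OP` with at least one and at most two fixed points on the circle; then one of them is
not `Rep`. Suppose that all are `Rep`. Let `a` be one, `X = cX a`, `h` the order isomorphism of the
line given by `coordH`. `h (X s1) > X s1`, `h (X s2) < X s2`, so by the intermediate value theorem
there is a fixed point of `h` in between, i.e. a fixed point `b ≠ a` of `bd Ψ`, and it is the only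
one besides `a`; `β = X b`, `X s1 < β < X s2`. By `sign_const` on `Iio β` (no fixed points there):
`h t > t` for `t < β`. So (`det3_pos_iff`) for every `x` with `0 < det3 a x b` one has
`0 < det3 a x (Ψ x)` (and `0 < det3 a (Ψ x) b`).   (1)
The point `b` is also `Rep`; exchanging the roles of `a` and `b` in the coordinate `Y = cX b`, with
`k` the order isomorphism: `k` has the only fixed point `α = Y a`, and `k t < t` for `t > α`
(`sign_const` on `Ioi α`, using `s2'` for `b`, `Y s1' < α < Y s2'`). The set `{x | Y x > α}` is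
`{x | 0 < det3 b a x} = {x | 0 < det3 a x b}`. Take such an `x` (the arc is not empty), then
`Y (Ψ x) < Y x`, i.e. `0 < det3 b (Ψ x) x`. By (1) `X x < X (Ψ x) < X b`, so by `det3_cX3` (all
three are different from `a`) `0 < det3 x (Ψ x) b = det3 b x (Ψ x) = - det3 b (Ψ x) x`,
a contradiction.
-/

set_option autoImplicit false

namespace Pool.Agent.Work.MP_d3656f_al

namespace Model

variable {G : Type} [Group G] (M : Model G)

private theorem good_side {Ψ : MulAut G} (hop : M.OP Ψ) (h3 : ¬ M.Fix3 Ψ) {a : V} (ha : a ∈ Bd)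
    (hfa : M.bd Ψ a = a) (hr : M.Rep Ψ a) : ∃ b ∈ Bd, b ≠ a ∧ M.bd Ψ b = b ∧
      ∀ x ∈ Bd, x ≠ a →
        (cX a x < cX a b → cX a x < cX a (M.bd Ψ x) ∧ cX a (M.bd Ψ x) < cX a b) ∧
        (cX a b < cX a x → cX a (M.bd Ψ x) < cX a x) := by
  obtain ⟨h, hh⟩ := M.coordH ha
  set f : ℝ ≃o ℝ := h ⟨Ψ, hop, hfa⟩ with hf
  have hF : ∀ x ∈ Bd, x ≠ a → M.bd Ψ x ≠ a ∧ cX a (M.bd Ψ x) = f (cX a x) :=
    fun x hx hxa => hh ⟨Ψ, hop, hfa⟩ x hx hxa
  have hfix : ∀ t, f t = t → M.bd Ψ (nrm (cN a t)) = nrm (cN a t) := by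
    intro t ht
    have hm := cN_mem ha t
    have hne := cN_ne ha t
    obtain ⟨h1, h2⟩ := hF _ hm hne
    rw [cX_cN ha, ht] at h2
    refine cX_inj ha (M.bd_mem Ψ hm) hm h1 hne ?_
    rw [h2, cX_cN ha]
  obtain ⟨s₁, hs1, s₂, hs2, n1, n2, h12, hs1', hs2'⟩ := hr
  rw [(hF s₁ hs1 n1).2] at hs1'
  rw [(hF s₂ hs2 n2).2] at hs2'
  obtain ⟨t, ht1, htf⟩ : ∃ t ∈ Set.Icc (cX a s₁) (cX a s₂), f t = t := by
    by_contra hcon
    push Not at hcon
    rcases sign_const f (Set.Icc (cX a s₁) (cX a s₂)) Set.ordConnected_Icc hcon with h1 | h1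
    · exact absurd (h1 _ (Set.right_mem_Icc.2 h12.le)) (not_lt.2 hs2'.le)
    · exact absurd (h1 _ (Set.left_mem_Icc.2 h12.le)) (not_lt.2 hs1'.le)
  have huniq : ∀ t', f t' = t' → t' = t := by
    intro t' ht'
    by_contra hne
    refine h3 ⟨a, ha, nrm (cN a t), cN_mem ha t, nrm (cN a t'), cN_mem ha t', (cN_ne ha t).symm,
      fun he => ?_, (cN_ne ha t').symm, hfa, hfix t htf, hfix t' ht'⟩
    have := congrArg (cX a) he
    rw [cX_cN ha, cX_cN ha] at this
    exact hne this.symm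
  have e1 : cX a s₁ < t := lt_of_le_of_ne ht1.1 fun he => by
    rw [he, htf] at hs1'
    exact lt_irrefl _ hs1'
  have e2 : t < cX a s₂ := lt_of_le_of_ne ht1.2 fun he => by
    rw [← he, htf] at hs2'
    exact lt_irrefl _ hs2'
  have g1 : ∀ x, x < t → x < f x := by
    rcases sign_const f (Set.Iio t) Set.ordConnected_Iio
      (fun x hx he => absurd (huniq x he) (ne_of_lt hx)) with h1 | h1
    · exact h1
    · exact absurd (h1 _ e1) (not_lt.2 hs1'.le)
  have g2 : ∀ x, t < x → f x < x := by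
    rcases sign_const f (Set.Ioi t) Set.ordConnected_Ioi
      (fun x hx he => absurd (huniq x he) (ne_of_gt hx)) with h1 | h1
    · exact absurd (h1 _ e2) (not_lt.2 hs2'.le)
    · exact h1
  refine ⟨nrm (cN a t), cN_mem ha t, cN_ne ha t, hfix t htf, fun x hx hxa => ?_⟩
  rw [cX_cN ha, (hF x hx hxa).2]
  refine ⟨fun hlt => ⟨g1 _ hlt, ?_⟩, fun hlt => g2 _ hlt⟩
  have := f.strictMono hlt
  rw [htf] at this
  exact this

theorem good {Ψ : MulAut G} (hop : M.OP Ψ) (h3 : ¬ M.Fix3 Ψ) (h1 : ∃ a ∈ Bd, M.bd Ψ a = a) :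
    ∃ a ∈ Bd, M.bd Ψ a = a ∧ ¬ M.Rep Ψ a := by
  by_contra hcon
  push Not at hcon
  obtain ⟨a, ha, hfa⟩ := h1
  obtain ⟨b, hb, hba, hfb, hA⟩ := M.good_side hop h3 ha hfa (hcon a ha hfa)
  obtain ⟨b', hb', hbb', hfb', hB⟩ := M.good_side hop h3 hb hfb (hcon b hb hfb)
  have hb'a : b' = a := by
    by_contra hne
    exact h3 ⟨a, ha, b, hb, b', hb', hba.symm, hbb'.symm, Ne.symm hne, hfa, hfb, hfb'⟩
  subst hb'a
  -- a point of the arc from `b'` to `b`
  set x : V := nrm (cN b' (cX b' b - 1)) with hx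
  have hxm : x ∈ Bd := cN_mem ha _
  have hxa : x ≠ b' := cN_ne ha _
  have hXx : cX b' x = cX b' b - 1 := cX_cN ha _
  have hlt : cX b' x < cX b' b := by rw [hXx]; linarith
  have hxb : x ≠ b := fun he => by rw [he] at hlt; exact lt_irrefl _ hlt
  obtain ⟨k1, k2⟩ := (hA x hxm hxa).1 hlt
  have hdet : 0 < det3 b' x b := (det3_pos_iff ha hxm hb hxa hba).2 hlt
  have hdet2 : 0 < det3 b b' x := by
    rw [← det3_rot b b' x]
    exact hdet
  have hY : cX b b' < cX b x := (det3_pos_iff hb ha hxm hbb' hxb).1 hdet2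
  have hY2 := (hB x hxm hxb).2 hY
  have hmx := M.bd_mem Ψ hxm
  have hPa : M.bd Ψ x ≠ b' := fun he => hxa (M.bd_inj Ψ hxm ha (by rw [he, hfa]))
  have hPb : M.bd Ψ x ≠ b := fun he => hxb (M.bd_inj Ψ hxm hb (by rw [he, hfb]))
  have hdet3 : 0 < det3 b (M.bd Ψ x) x := (det3_pos_iff hb hmx hxm hPb hxb).2 hY2
  rw [det3_cX3 ha hb hmx hxm hba hPa hxa] at hdet3
  have q1 := Q_bd_pos ha hb hba.symm
  have q2 := Q_bd_pos ha hmx hPa.symm
  have q3 := Q_bd_pos ha hxm hxa.symm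
  have hq : 0 < Q b' b * Q b' (M.bd Ψ x) * Q b' x := by positivity
  have r1 : 0 < (cX b' b - cX b' (M.bd Ψ x)) * (cX b' (M.bd Ψ x) - cX b' x)
      * (cX b' b - cX b' x) := by
    have u1 : 0 < cX b' b - cX b' (M.bd Ψ x) := sub_pos.2 k2
    have u2 : 0 < cX b' (M.bd Ψ x) - cX b' x := sub_pos.2 k1
    have u3 : 0 < cX b' b - cX b' x := sub_pos.2 hlt
    positivity
  have r2 : (cX b' (M.bd Ψ x) - cX b' b) * (cX b' x - cX b' (M.bd Ψ x)) * (cX b' x - cX b' b)
      = -((cX b' b - cX b' (M.bd Ψ x)) * (cX b' (M.bd Ψ x) - cX b' x)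
      * (cX b' b - cX b' x)) := by ring
  rw [r2] at hdet3
  have r3 := mul_pos hq r1
  linarith

end Model

end Pool.Agent.Work.MP_d3656f_al
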