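import Mathlib
import Pool.Agent.Work.MP_d3656f_al.O.Ord

/-!
# J/Near : cells which are moved a bounded distance; the fixed subgroup

Write `Ψ = conj γ * Φ`, `τ v = γ * Φ v`; `Ψ x = x ↔ γ * Φ x = x * γ`.
* `near`: if `q v (τ v) ≤ D` then `v⁻¹ τ v` lies in the ball of radius `D`, a finite set. If
  `v⁻¹ τ v = v'⁻¹ τ v'` then `x = v' v⁻¹` satisfies `γ Φ x = x γ`
  (`τ v' (τ v)⁻¹ = γ Φ (v' v⁻¹) γ⁻¹`). So choose one `v` for each value.
* `vfix`: let `bd Ψ` not have three fixed points, `bd Ψ a = a`, `Ψ x = x`. Then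
  `bact x a = a`. If `x = 1` clear. Let `b = bact x a`, `bd Ψ b = bact (Ψ x) (bd Ψ a) = b`
  (`bd_bact`). Suppose `b ≠ a`. `bact x b` is a fixed point of `bd Ψ`, so it is `a` or `b`, and not
  `b` as `bact x` is injective; so `bact x b = a`. So `act x a = λ b`, `act x b = μ a` with
  `λ, μ > 0` (vectors), `λ μ = 1` because `Q a b` is preserved. `m = a + λ b` is fixed by
  `act x`, it is timelike; so all powers satisfy
  `Q m (pt (x^n)) = Q m base`, hence `q 1 (x^n) ≤ 4 (Q base m')(Q m' (pt (x^n)))` is bounded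
  (`m'` the normalisation of `m` in `Hyp`), the powers form a finite set (`ball_finite`) and `x` has
  finite order, `x = 1` by `tf`.
-/

set_option autoImplicit false

namespace Pool.Agent.Work.MP_d3656f_al

namespace Model

variable {G : Type} [Group G] (M : Model G)

theorem near (Φ : MulAut G) (γ : G) (D : ℝ) : ∃ E : Set G, E.Finite ∧
    ∀ v : G, M.q v (γ * Φ v) ≤ D → ∃ x : G, γ * Φ x = x * γ ∧ ∃ f ∈ E, v = x * f := by
  classical
  have hex : ∀ f : G, ∃ w : G, (∃ v : G, v⁻¹ * (γ * Φ v) = f) → w⁻¹ * (γ * Φ w) = f := by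
    intro f
    by_cases h : ∃ v : G, v⁻¹ * (γ * Φ v) = f
    · obtain ⟨v, hv⟩ := h
      exact ⟨v, fun _ => hv⟩
    · exact ⟨1, fun h' => absurd h' h⟩
  choose w hw using hex
  refine ⟨w '' {f : G | M.q 1 f ≤ D}, (M.ball_finite 1 D).image w, fun v hv => ?_⟩
  set f : G := v⁻¹ * (γ * Φ v) with hf
  have h1 : (w f)⁻¹ * (γ * Φ (w f)) = f := hw f ⟨v, rfl⟩
  have h2 : M.q 1 f ≤ D := by
    rw [← M.q_left v 1 f, mul_one, hf, mul_inv_cancel_left]
    exact hv
  have h3 : γ * Φ (w f) = w f * f := by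
    have h6 := congrArg (fun z => w f * z) h1
    simp only [mul_inv_cancel_left] at h6
    exact h6
  have h4 : γ * Φ v = v * f := by
    rw [hf, mul_inv_cancel_left]
  refine ⟨v * (w f)⁻¹, ?_, w f, ⟨f, h2, rfl⟩, by group⟩
  have h5 : Φ (w f) = γ⁻¹ * (w f * f) := by
    rw [← h3, inv_mul_cancel_left]
  rw [map_mul, map_inv, ← mul_assoc, h4, h5]
  group

private theorem eq_one_of_bdd' {w : G} {R : ℝ} (h : ∀ n : ℕ, M.q 1 (w ^ n) ≤ R) : w = 1 := by
  by_contra hw
  have hinj : Function.Injective fun n : ℕ => w ^ n := by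
    intro m n hmn
    simp only at hmn
    rcases lt_trichotomy m n with h1 | h1 | h1
    · exfalso
      apply M.tf w hw (n - m) (by omega)
      have : w ^ n = w ^ m * w ^ (n - m) := by rw [← pow_add]; congr 1; omega
      rw [this] at hmn
      exact mul_left_cancel (by rw [mul_one]; exact hmn.symm)
    · exact h1
    · exfalso
      apply M.tf w hw (m - n) (by omega)
      have : w ^ m = w ^ n * w ^ (m - n) := by rw [← pow_add]; congr 1; omega
      rw [this] at hmn
      exact mul_left_cancel (by rw [mul_one]; exact hmn)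
  exact Set.infinite_of_injective_forall_mem hinj (fun n => h n) (M.ball_finite 1 R)

private theorem eq_one_of_fixed {x : G} {m : V} (hm : m ∈ Cone) (hmm : 0 < Q m m)
    (h : M.act x m = m) : x = 1 := by
  have hpow : ∀ n : ℕ, M.act (x ^ n) m = m := by
    intro n
    induction n with
    | zero => rw [pow_zero, M.act_one]
    | succ n ih => rw [pow_succ, M.act_mul, h, ih]
  set r : ℝ := √(Q m m) with hr
  have hr0 : 0 < r := Real.sqrt_pos.mpr hmm
  have hrr : r * r = Q m m := Real.mul_self_sqrt hmm.le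
  set y : V := r⁻¹ • m with hy
  have hyh : y ∈ Hyp := by
    constructor
    · rw [hy, Q_smul_left, Q_smul_right, ← hrr]
      field_simp
    · exact (cone_smul hm (inv_pos.mpr hr0)).2
  refine M.eq_one_of_bdd' (R := 4 * (Q base y * Q y base)) fun n => ?_
  have h1 : Q y (M.pt (x ^ n)) = Q y base := by
    have h2 : M.act (x ^ n) y = y := by
      rw [hy, M.act_smul, hpow]
    have h3 := M.act_Q (x ^ n) y base
    rw [h2] at h3
    exact h3
  have h4 : M.q 1 (x ^ n) = Q base (M.pt (x ^ n)) := by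
    unfold q
    rw [M.pt_one]
  rw [h4, ← h1]
  have h5 := Q_tri (hyp_cone base_hyp) hyh (M.pt_cone (x ^ n))
  rw [h1] at h5 ⊢
  exact h5

theorem vfix (Φ : MulAut G) (γ : G) (h3 : ¬ M.Fix3 (MulAut.conj γ * Φ)) {a : V} (ha : a ∈ Bd)
    (hfa : M.bd (MulAut.conj γ * Φ) a = a) {x : G} (hx : γ * Φ x = x * γ) :
    M.bact x a = a := by
  by_contra hne
  have hΨ : (MulAut.conj γ * Φ) x = x := by
    rw [MulAut.mul_apply, MulAut.conj_apply, hx, mul_inv_cancel_right]
  set Ψ : MulAut G := MulAut.conj γ * Φ with hΨd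
  have hb : M.bact x a ∈ Bd := M.bact_mem x ha
  have hfb : M.bd Ψ (M.bact x a) = M.bact x a := by
    rw [M.bd_bact Ψ x ha, hΨ, hfa]
  have hc : M.bact x (M.bact x a) ∈ Bd := M.bact_mem x hb
  have hfc : M.bd Ψ (M.bact x (M.bact x a)) = M.bact x (M.bact x a) := by
    rw [M.bd_bact Ψ x hb, hΨ, hfb]
  have hcb : M.bact x a ≠ M.bact x (M.bact x a) := by
    intro h
    exact hne (M.bact_inj x ha hb h).symm
  have hca : M.bact x (M.bact x a) = a := by
    by_contra hca
    exact h3 ⟨a, ha, M.bact x a, hb, M.bact x (M.bact x a), hc, Ne.symm hne, hcb, Ne.symm hca,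
      hfa, hfb, hfc⟩
  obtain ⟨t, ht, et⟩ := M.act_eq_bact x ha
  obtain ⟨s, hs, es⟩ := M.act_eq_bact x hb
  rw [hca] at es
  set b : V := M.bact x a with hbd
  have hQ : 0 < Q a b := Q_bd_pos ha hb (Ne.symm hne)
  have hts : t * s = 1 := by
    have h1 := M.act_Q x a b
    rw [et, es, Q_smul_left, Q_smul_right, Q_symm b a] at h1
    have h2 : (t * s - 1) * Q a b = 0 := by linarith
    rcases mul_eq_zero.mp h2 with h | h
    · linarith
    · exact absurd h hQ.ne'
  have hm : a + t • b ∈ Cone := cone_add (bd_cone ha) (cone_smul (bd_cone hb) ht)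
  have hmm : 0 < Q (a + t • b) (a + t • b) := by
    rw [Q_add_left, Q_add_right, Q_add_right, Q_smul_left, Q_smul_left, Q_smul_right, Q_smul_right,
      ha.1, hb.1, Q_symm b a]
    have : 0 < t * Q a b := mul_pos ht hQ
    linarith
  have hfix : M.act x (a + t • b) = a + t • b := by
    rw [M.act_add, M.act_smul, et, es, smul_smul, hts, one_smul, add_comm]
  have h1 : x = 1 := M.eq_one_of_fixed hm hmm hfix
  apply hne
  rw [hbd, h1, M.bact_one ha]

end Model

end Pool.Agent.Work.MP_d3656f_al
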