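import Mathlib
import Pool.Agent.Work.MP_d3656f_al.E.Cont

/-!
# J/NoFix : lifts without fixed points on the circle

`nofix`: let `Ψ = conj γ * Φ` have no fixed point on the circle, `τ v = γ * Φ v`. For every `C` the
set of all `v` with `Bt C (τ v) v base` is finite. Proof: suppose not; then there is an injective
sequence `v k` in this set; `q 1 (v k) → ∞` along it (`ball_finite`); the vectors
`nrm (pt (v k))` lie in a compact set, so for a subsequence they converge to some `a`,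
`a 2 = 1`, `Q a a = lim 1/(q 1 (v k))^2 = 0`, `a ∈ Bd`. By `bd_seq`
`nrm (pt (Φ (v k))) → bd Φ a`, and `nrm (pt (γ u)) = nrm (act γ (nrm (pt u)))` is continuous in
`nrm (pt u)`, so `nrm (pt (τ (v k))) → bact γ (bd Φ a) = bd Ψ a`. On the other hand
`Q (pt (τ v)) (pt v) * Q (pt v) base ≤ C * Q (pt (τ v)) base` gives
`Q (nrm (pt (τ v))) (nrm (pt v)) ≤ C / (q 1 v)^2 → 0`, so by `Q_dist` the two limits agree:
`bd Ψ a = a`, a contradiction.
`nofix_triv`: if moreover `γ * Φ x = x * γ` then `x = 1`: for `v = x^n`, `τ v = x^n γ`, so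
`q v (τ v) = q 1 γ =: r` and `Q (pt (τ v)) (pt v) * Q (pt v) base ≤ r * 4 r * Q (pt (τ v)) base`, so
all `x^n` lie in the finite set of `nofix` for `C = 4 r^2`; so `x` has finite order, `tf`.
-/

set_option autoImplicit false

namespace Pool.Agent.Work.MP_d3656f_al

namespace Model

variable {G : Type} [Group G] (M : Model G)

private theorem pt_two (u : G) : (M.pt u) 2 = M.q 1 u := by
  unfold Model.q
  rw [M.pt_one, Q_base_left]

private theorem q1_pos (u : G) : 0 < M.q 1 u := lt_of_lt_of_le one_pos (M.one_le_q 1 u)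

private theorem nrm_eq (u : G) : nrm (M.pt u) = (M.q 1 u)⁻¹ • M.pt u := by
  unfold nrm
  rw [M.pt_two]

private theorem pt_eq (u : G) : M.pt u = (M.q 1 u) • nrm (M.pt u) := by
  rw [M.nrm_eq, smul_smul, mul_inv_cancel₀ (M.q1_pos u).ne', one_smul]

private theorem Q_nrm (u : G) : Q (nrm (M.pt u)) (nrm (M.pt u)) = (M.q 1 u)⁻¹ ^ 2 := by
  rw [M.nrm_eq, Q_smul_left, Q_smul_right]
  have := (M.pt_hyp u).1
  rw [this]
  ring

private theorem bact_nrm (g w : G) : M.bact g (nrm (M.pt w)) = nrm (M.pt (g * w)) := by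
  have h : M.act g (nrm (M.pt w)) = (M.q 1 w)⁻¹ • M.pt (g * w) := by
    rw [M.nrm_eq, M.act_smul, M.act_pt]
  unfold Model.bact
  rw [h, nrm_smul (inv_pos.2 (M.q1_pos w))]

private theorem cont_act (g : G) : Continuous (M.act g) := by
  unfold Model.act
  exact Continuous.matrix_mulVec continuous_const continuous_id

private theorem contAt_bact (g : G) {x : V} (hx : x ∈ Bd) : ContinuousAt (M.bact g) x := by
  have hc : x ∈ Cone := ⟨hx.1.ge, by rw [hx.2]; exact one_pos⟩
  have h2 : (M.act g x) 2 ≠ 0 := (M.act_cone g hc).2.ne'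
  have h3 : ContinuousAt (fun y => (M.act g y) 2) x := ((continuous_apply 2).comp (M.cont_act g)).continuousAt
  have h4 : ContinuousAt (fun y => ((M.act g y) 2)⁻¹ • M.act g y) x := (h3.inv₀ h2).smul (M.cont_act g).continuousAt
  exact h4

private theorem Q_cont : Continuous (fun p : V × V => Q p.1 p.2) := by
  unfold Q
  fun_prop

private theorem nrm_bdd {x : V} (hx : x ∈ Cone) (h2 : x 2 = 1) : x ∈ Set.Icc (-1 : V) 1 := by
  have h := hx.1
  unfold Q at h
  rw [h2] at h
  have h0 : x 0 ^ 2 ≤ 1 := by nlinarith [sq_nonneg (x 1)]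
  have h1 : x 1 ^ 2 ≤ 1 := by nlinarith [sq_nonneg (x 0)]
  have k0 := abs_le.1 ((sq_le_one_iff_abs_le_one _).1 h0)
  have k1 := abs_le.1 ((sq_le_one_iff_abs_le_one _).1 h1)
  constructor
  · intro i
    fin_cases i
    · exact k0.1
    · exact k1.1
    · change (-1 : ℝ) ≤ x 2
      rw [h2]; norm_num
  · intro i
    fin_cases i
    · exact k0.2
    · exact k1.2
    · change x 2 ≤ (1 : ℝ)
      rw [h2]

theorem nofix (Φ : MulAut G) (γ : G) (h : ∀ a ∈ Bd, M.bd (MulAut.conj γ * Φ) a ≠ a) (C : ℝ) :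
    {v : G | Bt C (M.pt (γ * Φ v)) (M.pt v) base}.Finite := by
  by_contra hinf
  rw [← Set.Infinite] at hinf
  set f := hinf.natEmbedding with hf
  set v : ℕ → G := fun k => (f k : G) with hv
  have hvS : ∀ k, Bt C (M.pt (γ * Φ (v k))) (M.pt (v k)) base := fun k => (f k).2
  have hvinj : Function.Injective v := fun i j hij => f.injective (Subtype.ext hij)
  -- `q 1 (v k)` tends to infinity
  have hq : Filter.Tendsto (fun k => M.q 1 (v k)) Filter.atTop Filter.atTop := by
    rw [Filter.tendsto_atTop]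
    intro R
    have h1 : (v ⁻¹' {g : G | M.q 1 g ≤ R}).Finite := (M.ball_finite 1 R).preimage hvinj.injOn
    have h2 : ∀ᶠ k in Filter.cofinite, k ∉ v ⁻¹' {g : G | M.q 1 g ≤ R} := h1.eventually_cofinite_notMem
    rw [Nat.cofinite_eq_atTop] at h2
    filter_upwards [h2] with k hk
    have : ¬ M.q 1 (v k) ≤ R := hk
    linarith
  have hmem : ∀ u : G, nrm (M.pt u) ∈ Set.Icc (-1 : V) 1 := fun u =>
    nrm_bdd (nrm_cone (M.pt_cone u)) (nrm_two (M.pt_cone u).2)
  obtain ⟨a, -, φ, hφ, ha⟩ := (isCompact_Icc (a := (-1 : V)) (b := 1)).tendsto_subseq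
    (x := fun k => nrm (M.pt (v k))) (fun k => hmem _)
  set w : ℕ → G := fun k => v (φ k) with hw
  have ha' : Filter.Tendsto (fun k => nrm (M.pt (w k))) Filter.atTop (nhds a) := ha
  have hq' : Filter.Tendsto (fun k => M.q 1 (w k)) Filter.atTop Filter.atTop := hq.comp hφ.tendsto_atTop
  have hinv : Filter.Tendsto (fun k => (M.q 1 (w k))⁻¹) Filter.atTop (nhds 0) := hq'.inv_tendsto_atTop
  have hinv2 : Filter.Tendsto (fun k => (M.q 1 (w k))⁻¹ ^ 2) Filter.atTop (nhds 0) := by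
    have := hinv.pow 2
    simpa using this
  have hcoord : ∀ i : Fin 3, Filter.Tendsto (fun k => (nrm (M.pt (w k))) i) Filter.atTop (nhds (a i)) :=
    fun i => ((continuous_apply i).tendsto a).comp ha'
  have ha2 : a 2 = 1 := by
    have h1 : Filter.Tendsto (fun k => (nrm (M.pt (w k))) 2) Filter.atTop (nhds 1) := by
      have : (fun k => (nrm (M.pt (w k))) 2) = fun _ => (1 : ℝ) := by
        funext k
        exact nrm_two (M.pt_cone _).2
      rw [this]
      exact tendsto_const_nhds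
    exact tendsto_nhds_unique (hcoord 2) h1
  have haQ : Q a a = 0 := by
    have h1 : Filter.Tendsto (fun k => Q (nrm (M.pt (w k))) (nrm (M.pt (w k)))) Filter.atTop (nhds (Q a a)) :=
      (Q_cont.tendsto (a, a)).comp (ha'.prodMk_nhds ha')
    have h2 : (fun k => Q (nrm (M.pt (w k))) (nrm (M.pt (w k)))) = fun k => (M.q 1 (w k))⁻¹ ^ 2 := by
      funext k
      exact M.Q_nrm _
    rw [h2] at h1
    exact tendsto_nhds_unique h1 hinv2
  have haB : a ∈ Bd := ⟨haQ, ha2⟩
  have hΦ := M.bd_seq Φ w haB ha'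
  have hbB : M.bd Φ a ∈ Bd := M.bd_mem Φ haB
  have hτ : Filter.Tendsto (fun k => nrm (M.pt (γ * Φ (w k)))) Filter.atTop (nhds (M.bact γ (M.bd Φ a))) := by
    have h1 := (M.contAt_bact γ hbB).tendsto.comp hΦ
    have h2 : (M.bact γ ∘ fun k => nrm (M.pt (Φ (w k)))) = fun k => nrm (M.pt (γ * Φ (w k))) := by
      funext k
      exact M.bact_nrm _ _
    rw [h2] at h1
    exact h1
  have hbd : M.bact γ (M.bd Φ a) = M.bd (MulAut.conj γ * Φ) a := by
    rw [M.bd_mul _ _ haB, M.bd_conj γ hbB]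
  set b : V := M.bact γ (M.bd Φ a) with hb
  have hbB' : b ∈ Bd := M.bact_mem γ hbB
  -- the products tend to zero
  have hQle : ∀ k, Q (nrm (M.pt (γ * Φ (w k)))) (nrm (M.pt (w k))) ≤ |C| * (M.q 1 (w k))⁻¹ ^ 2 := by
    intro k
    have h1 := hvS (φ k)
    have h1' : Q (M.pt (γ * Φ (w k))) (M.pt (w k)) * Q (M.pt (w k)) base ≤ C * Q (M.pt (γ * Φ (w k))) base := h1
    rw [Q_base_right, Q_base_right, M.pt_two, M.pt_two] at h1'
    have e1 : Q (M.pt (γ * Φ (w k))) (M.pt (w k)) =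
        M.q 1 (γ * Φ (w k)) * (M.q 1 (w k) * Q (nrm (M.pt (γ * Φ (w k)))) (nrm (M.pt (w k)))) := by
      conv_lhs => rw [M.pt_eq (γ * Φ (w k)), M.pt_eq (w k)]
      rw [Q_smul_left, Q_smul_right]
    rw [e1] at h1'
    have p1 := M.q1_pos (γ * Φ (w k))
    have p2 := M.q1_pos (w k)
    set x := Q (nrm (M.pt (γ * Φ (w k)))) (nrm (M.pt (w k))) with hx
    set A := M.q 1 (γ * Φ (w k)) with hA
    set B := M.q 1 (w k) with hB
    have h2 : A * (x * B ^ 2) ≤ A * C := by nlinarith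
    have h3 : x * B ^ 2 ≤ C := le_of_mul_le_mul_left h2 p1
    have h4 : x ≤ C * B⁻¹ ^ 2 := by
      rw [inv_pow, ← div_eq_mul_inv, le_div_iff₀ (by positivity)]
      exact h3
    refine h4.trans ?_
    exact mul_le_mul_of_nonneg_right (le_abs_self C) (by positivity)
  have hlim : ∀ i : Fin 3, Filter.Tendsto (fun k => (nrm (M.pt (γ * Φ (w k)))) i - (nrm (M.pt (w k))) i)
      Filter.atTop (nhds (b i - a i)) := fun i =>
    (((continuous_apply i).tendsto b).comp hτ).sub (hcoord i)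
  have hbound : ∀ k, ((nrm (M.pt (γ * Φ (w k)))) 0 - (nrm (M.pt (w k))) 0) ^ 2 +
      ((nrm (M.pt (γ * Φ (w k)))) 1 - (nrm (M.pt (w k))) 1) ^ 2 ≤ 2 * (|C| * (M.q 1 (w k))⁻¹ ^ 2) := by
    intro k
    have h1 := Q_dist (nrm_cone (M.pt_cone (γ * Φ (w k)))) (nrm_cone (M.pt_cone (w k)))
      (nrm_two (M.pt_cone _).2) (nrm_two (M.pt_cone _).2)
    linarith [hQle k]
  have hsum : (b 0 - a 0) ^ 2 + (b 1 - a 1) ^ 2 ≤ 0 := by
    have h1 := (((hlim 0).pow 2).add ((hlim 1).pow 2))
    have h2 : Filter.Tendsto (fun k => 2 * (|C| * (M.q 1 (w k))⁻¹ ^ 2)) Filter.atTop (nhds 0) := by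
      have := (hinv2.const_mul |C|).const_mul 2
      simpa using this
    exact le_of_tendsto_of_tendsto' h1 h2 hbound
  have e0 : b 0 = a 0 := by nlinarith [sq_nonneg (b 0 - a 0), sq_nonneg (b 1 - a 1)]
  have e1 : b 1 = a 1 := by nlinarith [sq_nonneg (b 0 - a 0), sq_nonneg (b 1 - a 1)]
  have e2 : b 2 = a 2 := by rw [hbB'.2, ha2]
  have eba : b = a := by
    funext i
    fin_cases i
    · exact e0
    · exact e1
    · exact e2
  exact h a haB (by rw [← hbd]; exact eba)

theorem nofix_triv (Φ : MulAut G) (γ : G) (h : ∀ a ∈ Bd, M.bd (MulAut.conj γ * Φ) a ≠ a)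
    {x : G} (hx : γ * Φ x = x * γ) : x = 1 := by
  by_contra hx1
  have hpow : ∀ n : ℕ, γ * Φ (x ^ n) = x ^ n * γ := by
    intro n
    induction n with
    | zero => simp
    | succ n ih =>
      rw [pow_succ, map_mul, ← mul_assoc, ih, mul_assoc, hx, mul_assoc]
  have hfin := M.nofix Φ γ h (4 * (M.q 1 γ) ^ 2)
  have hall : ∀ n : ℕ, x ^ n ∈ {v : G | Bt (4 * (M.q 1 γ) ^ 2) (M.pt (γ * Φ v)) (M.pt v) base} := by
    intro n
    show Q (M.pt (γ * Φ (x ^ n))) (M.pt (x ^ n)) * Q (M.pt (x ^ n)) base ≤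
      4 * (M.q 1 γ) ^ 2 * Q (M.pt (γ * Φ (x ^ n))) base
    rw [hpow n]
    have h1 : Q (M.pt (x ^ n * γ)) (M.pt (x ^ n)) = M.q 1 γ := by
      have h2 : M.q (x ^ n * γ) (x ^ n) = M.q γ 1 := by
        have := M.q_left (x ^ n) γ 1
        rwa [mul_one] at this
      rw [M.q_symm γ 1] at h2
      exact h2
    have h3 : Q (M.pt (x ^ n)) base = M.q (x ^ n) 1 := by
      unfold Model.q
      rw [M.pt_one]
    have h4 : Q (M.pt (x ^ n * γ)) base = M.q (x ^ n * γ) 1 := by
      unfold Model.q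
      rw [M.pt_one]
    rw [h1, h3, h4]
    have h5 := M.q_tri (x ^ n) (x ^ n * γ) 1
    have h6 : M.q (x ^ n) (x ^ n * γ) = M.q 1 γ := by
      have := M.q_left (x ^ n) 1 γ
      rwa [mul_one] at this
    rw [h6] at h5
    have h7 := M.q1_pos γ
    nlinarith
  have hinj : Function.Injective (fun n : ℕ => x ^ n) := by
    intro m n hmn
    by_contra hne
    wlog hlt : m < n generalizing m n
    · exact this hmn.symm (Ne.symm hne) (lt_of_le_of_ne (not_lt.1 hlt) (Ne.symm hne))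
    · have h8 : x ^ (n - m) = 1 := by
        have h9 : x ^ n = x ^ m * x ^ (n - m) := by
          rw [← pow_add]
          congr 1
          omega
        have h10 : x ^ m * x ^ (n - m) = x ^ m * 1 := by
          rw [← h9, mul_one]
          exact hmn.symm
        exact mul_left_cancel h10
      exact M.tf x hx1 (n - m) (by omega) h8
  exact (Set.infinite_of_injective_forall_mem hinj hall) hfin

end Model

end Pool.Agent.Work.MP_d3656f_al
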